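import Mathlib

set_option autoImplicit false

namespace Pool.Agent.helper95.OR

open Finset

/-- all pairs inside `Q` have colour `κ`. -/
def Clq (c : ℕ → ℕ → Bool) (κ : Bool) (Q : Finset ℕ) : Prop :=
  ∀ x ∈ Q, ∀ y ∈ Q, x < y → c x y = κ

/-- every element of `A` is smaller than every element of `B`. -/
def Bef (A B : Finset ℕ) : Prop := ∀ x ∈ A, ∀ y ∈ B, x < y

/-- number of pairs of colour `κ` between `A` and `B`. -/
def ep (c : ℕ → ℕ → Bool) (κ : Bool) (A B : Finset ℕ) : ℕ :=
  ((A ×ˢ B).filter (fun p => c p.1 p.2 = κ)).card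

theorem Clq.mono {c : ℕ → ℕ → Bool} {κ : Bool} {P Q : Finset ℕ} (h : Clq c κ Q) (hP : P ⊆ Q) :
    Clq c κ P := fun x hx y hy hxy => h x (hP hx) y (hP hy) hxy

theorem ep_mono {c : ℕ → ℕ → Bool} {κ : Bool} {A B A' B' : Finset ℕ} (hA : A ⊆ A') (hB : B ⊆ B') :
    ep c κ A B ≤ ep c κ A' B' := by
  unfold ep
  exact card_le_card (filter_subset_filter _ (product_subset_product hA hB))

theorem ep_total (c : ℕ → ℕ → Bool) (κ : Bool) (A B : Finset ℕ) :
    ep c κ A B + ep c (!κ) A B = A.card * B.card := by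
  unfold ep
  rw [← card_product, ← card_filter_add_card_filter_not (s := A ×ˢ B) (fun p => c p.1 p.2 = κ)]
  congr 2
  ext p
  simp only [mem_filter, and_congr_right_iff]
  intro _
  cases c p.1 p.2 <;> cases κ <;> simp

theorem ep_le_mul (c : ℕ → ℕ → Bool) (κ : Bool) (A B : Finset ℕ) :
    ep c κ A B ≤ A.card * B.card := by
  have := ep_total c κ A B
  omega

theorem ep_sum_right (c : ℕ → ℕ → Bool) (κ : Bool) (A B : Finset ℕ) :
    ep c κ A B = ∑ y ∈ B, (A.filter (fun x => c x y = κ)).card := by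
  unfold ep
  rw [card_filter, sum_product_right]
  apply sum_congr rfl
  intro y _
  rw [card_filter]

theorem ep_sum_left (c : ℕ → ℕ → Bool) (κ : Bool) (A B : Finset ℕ) :
    ep c κ A B = ∑ x ∈ A, (B.filter (fun y => c x y = κ)).card := by
  unfold ep
  rw [card_filter, sum_product]
  apply sum_congr rfl
  intro y _
  rw [card_filter]

theorem ep_union_left (c : ℕ → ℕ → Bool) (κ : Bool) (A A' B : Finset ℕ) :
    ep c κ (A ∪ A') B ≤ ep c κ A B + ep c κ A' B := by
  unfold ep
  rw [union_product, filter_union]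
  exact card_union_le _ _

theorem ep_biUnion_left (c : ℕ → ℕ → Bool) (κ : Bool) (𝓐 : Finset (Finset ℕ)) (A B : Finset ℕ)
    (hA : A ⊆ 𝓐.biUnion id) :
    ep c κ A B ≤ ∑ Q ∈ 𝓐, ep c κ (Q ∩ A) B := by
  unfold ep
  refine le_trans (card_le_card ?_) card_biUnion_le
  intro p hp
  simp only [mem_filter, mem_product, mem_biUnion, mem_inter] at hp ⊢
  obtain ⟨⟨h1, h2⟩, h3⟩ := hp
  obtain ⟨Q, hQ, hpQ⟩ := mem_biUnion.1 (hA h1)
  exact ⟨Q, hQ, ⟨⟨hpQ, h1⟩, h2⟩, h3⟩

theorem ep_biUnion_right (c : ℕ → ℕ → Bool) (κ : Bool) (𝓑 : Finset (Finset ℕ)) (A B : Finset ℕ)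
    (hB : B ⊆ 𝓑.biUnion id) :
    ep c κ A B ≤ ∑ Q ∈ 𝓑, ep c κ A (Q ∩ B) := by
  unfold ep
  refine le_trans (card_le_card ?_) card_biUnion_le
  intro p hp
  simp only [mem_filter, mem_product, mem_biUnion, mem_inter] at hp ⊢
  obtain ⟨⟨h1, h2⟩, h3⟩ := hp
  obtain ⟨Q, hQ, hpQ⟩ := mem_biUnion.1 (hB h2)
  exact ⟨Q, hQ, ⟨h1, ⟨hpQ, h2⟩⟩, h3⟩

/-- no complete `κ`-coloured `K_{t,t}` between `A` and `B`. -/
def NoK (c : ℕ → ℕ → Bool) (κ : Bool) (t : ℕ) (A B : Finset ℕ) : Prop :=
  ∀ P ⊆ A, ∀ P' ⊆ B, P.card = t → P'.card = t → ¬ ∀ x ∈ P, ∀ y ∈ P', c x y = κ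

theorem NoK.mono {c : ℕ → ℕ → Bool} {κ : Bool} {t : ℕ} {A B A' B' : Finset ℕ}
    (h : NoK c κ t A B) (hA : A' ⊆ A) (hB : B' ⊆ B) : NoK c κ t A' B' :=
  fun P hP P' hP' h1 h2 => h P (hP.trans hA) P' (hP'.trans hB) h1 h2

theorem kst_chunk (c : ℕ → ℕ → Bool) (κ : Bool) (t : ℕ) (C B : Finset ℕ)
    (h : NoK c κ t C B) :
    ep c κ C B ≤ t * B.card + t * 2 ^ C.card * C.card := by
  classical
  set N : ℕ → Finset ℕ := fun y => C.filter (fun x => c x y = κ) with hN
  have hch : ∀ y, ∃ S : Finset ℕ, t ≤ (N y).card → (S ⊆ N y ∧ S.card = t) := by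
    intro y
    by_cases hy : t ≤ (N y).card
    · obtain ⟨S, hS⟩ := exists_subset_card_eq hy
      exact ⟨S, fun _ => hS⟩
    · exact ⟨∅, fun h => absurd h hy⟩
  choose S hS using hch
  set Bb := B.filter (fun y => t ≤ (N y).card) with hBb
  have hbig : Bb.card ≤ t * (powersetCard t C).card := by
    apply card_le_mul_card_image_of_maps_to (f := S)
    · intro y hy
      rw [hBb, mem_filter] at hy
      have h2 := hS y hy.2
      rw [mem_powersetCard]
      exact ⟨h2.1.trans (filter_subset _ _), h2.2⟩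
    · intro P hP
      by_contra hcon
      push Not at hcon
      obtain ⟨P', hP', hP'c⟩ := exists_subset_card_eq hcon.le
      rw [mem_powersetCard] at hP
      refine h P hP.1 P' ?_ hP.2 hP'c ?_
      · intro y hy
        have := hP' hy
        rw [mem_filter, hBb, mem_filter] at this
        exact this.1.1
      · intro x hx y hy
        have := hP' hy
        rw [mem_filter, hBb, mem_filter] at this
        have h2 := (hS y this.1.2).1
        rw [this.2] at h2
        have h3 := h2 hx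
        rw [hN] at h3
        simp only [mem_filter] at h3
        exact h3.2
  have hpc : (powersetCard t C).card ≤ 2 ^ C.card := by
    rw [card_powersetCard]
    exact Nat.choose_le_two_pow _ _
  rw [ep_sum_right]
  have hsplit : ∑ y ∈ B, (N y).card ≤ ∑ y ∈ B, (t + if t ≤ (N y).card then C.card else 0) := by
    apply sum_le_sum
    intro y _
    by_cases hy : t ≤ (N y).card
    · rw [if_pos hy]
      have : (N y).card ≤ C.card := card_le_card (filter_subset _ _)
      omega
    · rw [if_neg hy]; omega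
  refine hsplit.trans ?_
  rw [sum_add_distrib, sum_const, smul_eq_mul, ← sum_filter, sum_const, smul_eq_mul]
  have : Bb.card * C.card ≤ t * 2 ^ C.card * C.card :=
    Nat.mul_le_mul_right _ (hbig.trans (Nat.mul_le_mul_left _ hpc))
  rw [← hBb]
  nlinarith

theorem kst (c : ℕ → ℕ → Bool) (κ : Bool) (t α : ℕ) (hα : 0 < α) :
    ∀ m : ℕ, ∀ A B : Finset ℕ, A.card = m → NoK c κ t A B →
      α * ep c κ A B ≤ t * (A.card * B.card) + t * α * 2 ^ α * A.card + α ^ 2 * B.card := by
  classical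
  intro m
  induction m using Nat.strong_induction_on with
  | _ m ih =>
    intro A B hA h
    by_cases hm : m < α
    · have h1 := ep_le_mul c κ A B
      have h2 : α * ep c κ A B ≤ α * (α * B.card) := by
        apply Nat.mul_le_mul_left
        refine h1.trans (Nat.mul_le_mul_right _ ?_)
        omega
      have h3 : α * (α * B.card) = α ^ 2 * B.card := by ring
      rw [h3] at h2
      exact h2.trans (Nat.le_add_left _ _)
    · push Not at hm
      obtain ⟨C, hC, hCc⟩ := exists_subset_card_eq (s := A) (n := α) (by omega)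
      have hA' : (A \ C).card = m - α := by rw [card_sdiff_of_subset hC]; omega
      have h1 := ih (m - α) (by omega) (A \ C) B hA' (h.mono sdiff_subset (le_refl _))
      have h2 := kst_chunk c κ t C B (h.mono hC (le_refl _))
      have h3 := ep_union_left c κ C (A \ C) B
      rw [union_sdiff_of_subset hC] at h3
      rw [hCc] at h2
      rw [hA'] at h1
      rw [hA]
      obtain ⟨d, hd⟩ := Nat.exists_eq_add_of_le hm
      have hd' : m - α = d := by omega
      rw [hd'] at h1
      subst hd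
      calc α * ep c κ A B ≤ α * (ep c κ C B + ep c κ (A \ C) B) := Nat.mul_le_mul_left _ h3
        _ = α * ep c κ C B + α * ep c κ (A \ C) B := by ring
        _ ≤ α * (t * B.card + t * 2 ^ α * α)
            + (t * (d * B.card) + t * α * 2 ^ α * d + α ^ 2 * B.card) :=
              Nat.add_le_add (Nat.mul_le_mul_left _ h2) h1
        _ = t * ((α + d) * B.card) + t * α * 2 ^ α * (α + d) + α ^ 2 * B.card := by ring

end Pool.Agent.helper95.OR
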