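import Pool.Agent.helper95.OR.Tile

set_option autoImplicit false

namespace Pool.Agent.helper95.OR

open Finset

/-- a monochromatic copy of the `t`-th power of the `n`-vertex path below `N`, colour `b`. -/
def HasPath (c : ℕ → ℕ → Bool) (t n N : ℕ) (b : Bool) : Prop :=
  ∃ f : Fin n → ℕ, StrictMono f ∧ (∀ i, f i < N) ∧
    ∀ i j : Fin n, i < j → (j : ℕ) ≤ (i : ℕ) + t → c (f i) (f j) = b

/-- linked `t`-sets. -/
def Lk (c : ℕ → ℕ → Bool) (t : ℕ) (κ : Bool) (K K' : Finset ℕ) : Prop :=
  K.card = t ∧ K'.card = t ∧ Bef K K' ∧ Clq c κ (K ∪ K')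

/-- chains of linked `t`-sets with `r` links ending in `K`. -/
def Chn (c : ℕ → ℕ → Bool) (t : ℕ) (κ : Bool) (r : ℕ) (K : Finset ℕ) : Prop :=
  ∃ s : ℕ → Finset ℕ, s r = K ∧ ∀ q < r, Lk c t κ (s q) (s (q + 1))

theorem Chn.succ {c : ℕ → ℕ → Bool} {t : ℕ} {κ : Bool} {r : ℕ} {K K' : Finset ℕ}
    (h : Chn c t κ r K) (hK : Lk c t κ K K') : Chn c t κ (r + 1) K' := by
  obtain ⟨s, hs, hs2⟩ := h
  refine ⟨fun q => if q ≤ r then s q else K', by simp, ?_⟩
  intro q hq
  by_cases hqr : q = r
  · subst hqr
    simp only [le_refl, if_true, Nat.succ_le_iff, lt_irrefl, if_false]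
    rw [hs]; exact hK
  · have h1 : q ≤ r := by omega
    have h2 : q + 1 ≤ r := by omega
    simp only [h1, h2, if_true]
    exact hs2 q (by omega)

theorem chain_bef {c : ℕ → ℕ → Bool} {t : ℕ} (ht : 0 < t) {κ : Bool} {r : ℕ}
    {s : ℕ → Finset ℕ} (hs : ∀ q < r, Lk c t κ (s q) (s (q + 1))) :
    ∀ p q, p < q → q ≤ r → Bef (s p) (s q) := by
  intro p q hpq
  induction q with
  | zero => omega
  | succ q ih =>
    intro hq
    by_cases h : p = q
    · subst h; exact (hs p (by omega)).2.2.1
    · have h1 := ih (by omega) (by omega)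
      have h2 := hs q (by omega)
      have hne : (s q).Nonempty := by rw [← card_pos, h2.1]; exact ht
      obtain ⟨z, hz⟩ := hne
      intro x hx y hy
      exact (h1 x hx z hz).trans (h2.2.2.1 z hz y hy)

theorem path_of_chn {c : ℕ → ℕ → Bool} {t : ℕ} (ht : 0 < t) {κ : Bool} {n N : ℕ}
    {K : Finset ℕ} (hK : K ⊆ range N) (h : Chn c t κ n K) (hKc : K.card = t) :
    HasPath c t n N κ := by
  obtain ⟨s, hs, hs2⟩ := h
  have hbef := chain_bef ht hs2
  have hcard : ∀ q ≤ n, (s q).card = t := by
    intro q hq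
    by_cases h : q = n
    · rw [h, hs]; exact hKc
    · exact (hs2 q (by omega)).1
  have hsub : ∀ q ≤ n, s q ⊆ range N := by
    intro q hq
    by_cases h : q = n
    · rw [h, hs]; exact hK
    · intro x hx
      have hne : (s n).Nonempty := by rw [← card_pos, hcard n le_rfl]; exact ht
      obtain ⟨z, hz⟩ := hne
      have h1 := hbef q n (by omega) le_rfl x hx z hz
      rw [hs] at hz
      have h2 := mem_range.1 (hK hz)
      exact mem_range.2 (by omega)
  have hdiv : ∀ i : Fin n, (i : ℕ) / t ≤ n := fun i =>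
    (Nat.div_le_self _ _).trans i.2.le
  let v : Fin n → ℕ := fun i =>
    (s ((i : ℕ) / t)).orderEmbOfFin (hcard _ (hdiv i)) ⟨(i : ℕ) % t, Nat.mod_lt _ ht⟩
  have hv : ∀ i : Fin n, v i ∈ s ((i : ℕ) / t) := fun i => orderEmbOfFin_mem _ _ _
  have hmono : StrictMono v := by
    intro i j hij
    have hij' : (i : ℕ) < j := hij
    rcases lt_or_eq_of_le (Nat.div_le_div_right (c := t) hij'.le) with h | h
    · exact hbef _ _ h (hdiv j) _ (hv i) _ (hv j)
    · have h1 : (i : ℕ) % t < (j : ℕ) % t := by
        have e1 := Nat.div_add_mod (i : ℕ) t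
        have e2 := Nat.div_add_mod (j : ℕ) t
        rw [← h] at e2
        omega
      have key : ∀ (q q' : ℕ) (hq : (s q).card = t) (hq' : (s q').card = t) (hqq : q = q')
          (a b : Fin t), a < b → (s q).orderEmbOfFin hq a < (s q').orderEmbOfFin hq' b := by
        intro q q' hq hq' hqq a b hab
        subst hqq
        exact ((s q).orderEmbOfFin hq).strictMono hab
      exact key _ _ _ _ h _ _ h1
  refine ⟨v, hmono, ?_, ?_⟩
  · intro i
    exact mem_range.1 (hsub _ (hdiv i) (hv i))
  · intro i j hij hjt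
    have hij' : (i : ℕ) < j := hij
    have hin := i.2
    have hqi : (i : ℕ) / t < n := lt_of_le_of_lt (Nat.div_le_self _ _) hin
    have hl := hs2 _ hqi
    have h1 : (j : ℕ) / t ≤ (i : ℕ) / t + 1 := by
      calc (j : ℕ) / t ≤ ((i : ℕ) + t) / t := Nat.div_le_div_right hjt
        _ = (i : ℕ) / t + 1 := Nat.add_div_right _ ht
    have h2 : (i : ℕ) / t ≤ (j : ℕ) / t := Nat.div_le_div_right hij'.le
    have h3 : v j ∈ s ((i : ℕ) / t) ∪ s ((i : ℕ) / t + 1) := by
      rcases Nat.lt_or_ge ((i : ℕ) / t) ((j : ℕ) / t) with h | h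
      · have : (j : ℕ) / t = (i : ℕ) / t + 1 := by omega
        rw [← this]
        exact mem_union_right _ (hv j)
      · have : (j : ℕ) / t = (i : ℕ) / t := by omega
        have h4 := hv j
        rw [this] at h4
        exact mem_union_left _ h4
    exact hl.2.2.2 _ (mem_union_left _ (hv i)) _ h3 (hmono hij)

theorem exists_pot (c : ℕ → ℕ → Bool) {t : ℕ} (ht : 0 < t) {n N : ℕ}
    (hno : ∀ b, ¬ HasPath c t n N b) :
    ∃ F : Bool → Finset ℕ → ℕ, Pot c t F ∧
      ∀ κ K, K ⊆ range N → K.card = t → F κ K < n := by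
  classical
  let F : Bool → Finset ℕ → ℕ := fun κ K =>
    if K ⊆ range N then Nat.findGreatest (fun r => Chn c t κ r K) n else n + 1 + K.sup id
  have h0 : ∀ κ K, Chn c t κ 0 K := fun κ K => ⟨fun _ => K, rfl, fun q hq => absurd hq (by omega)⟩
  have hlt : ∀ κ K, K ⊆ range N → K.card = t →
      Nat.findGreatest (fun r => Chn c t κ r K) n < n := by
    intro κ K hK hKc
    have h1 : Nat.findGreatest (fun r => Chn c t κ r K) n ≤ n := Nat.findGreatest_le n
    rcases lt_or_eq_of_le h1 with h | h
    · exact h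
    · exfalso
      have h2 : Chn c t κ (Nat.findGreatest (fun r => Chn c t κ r K) n) K :=
        Nat.findGreatest_spec (P := fun r => Chn c t κ r K) (Nat.zero_le n) (h0 κ K)
      rw [h] at h2
      exact hno κ (path_of_chn ht hK h2 hKc)
  refine ⟨F, ?_, ?_⟩
  · intro κ K K' hK hK' hbef hcl
    have hneK : K.Nonempty := by rw [← card_pos, hK]; exact ht
    have hneK' : K'.Nonempty := by rw [← card_pos, hK']; exact ht
    by_cases h' : K' ⊆ range N
    · have h : K ⊆ range N := by
        intro x hx
        obtain ⟨z, hz⟩ := hneK'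
        have h1 := hbef x hx z hz
        have h2 := mem_range.1 (h' hz)
        exact mem_range.2 (by omega)
      simp only [F, h, h', if_true]
      have h2 : Chn c t κ (Nat.findGreatest (fun r => Chn c t κ r K) n) K :=
        Nat.findGreatest_spec (P := fun r => Chn c t κ r K) (Nat.zero_le n) (h0 κ K)
      have h3 := h2.succ ⟨hK, hK', hbef, hcl⟩
      have h4 := hlt κ K h hK
      exact Nat.le_findGreatest (P := fun r => Chn c t κ r K') h4 h3
    · by_cases h : K ⊆ range N
      · simp only [F, h, h', if_true, if_false]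
        have h4 := hlt κ K h hK
        omega
      · simp only [F, h, h', if_false]
        have h5 : K.sup id < K'.sup id := by
          obtain ⟨x, hx, hxe⟩ := exists_mem_eq_sup K hneK id
          obtain ⟨z, hz⟩ := hneK'
          rw [hxe]
          have h1 := hbef x hx z hz
          have h2 : z ≤ K'.sup id := le_sup (f := id) hz
          simp only [id]
          omega
        omega
  · intro κ K hK hKc
    simp only [F, hK, if_true]
    exact hlt κ K hK hKc

theorem no_strictMono {n m : ℕ} (hnm : m < n) (g : Fin n → ℕ) (hg : StrictMono g)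
    (hb : ∀ i, g i < m) : False := by
  have h1 : Function.Injective (fun i : Fin n => (⟨g i, hb i⟩ : Fin m)) := by
    intro i j hij
    apply hg.injective
    simpa using hij
  have h2 := Fintype.card_le_of_injective _ h1
  simp only [Fintype.card_fin] at h2
  omega

/-- the Erdos-Szekeres colouring. -/
theorem lower {t n : ℕ} (ht : 0 < t) (hn : 1 ≤ n) :
    ∃ c : ℕ → ℕ → Bool, ∀ b, ¬ HasPath c t n ((n - 1) ^ 2) b := by
  obtain ⟨m, rfl⟩ : ∃ m, n = m + 1 := ⟨n - 1, by omega⟩
  simp only [Nat.add_sub_cancel]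
  refine ⟨fun x y => decide (x % m < y % m), ?_⟩
  rintro b ⟨f, hf, hfN, hfc⟩
  rcases Nat.eq_zero_or_pos m with hm | hm
  · subst hm
    have := hfN 0
    simp at this
  have hcol : ∀ i : Fin m, decide (f i.castSucc % m < f i.succ % m) = b := by
    intro i
    apply hfc
    · exact Fin.castSucc_lt_succ
    · simp only [Fin.val_succ, Fin.val_castSucc]; omega
  cases b with
  | true =>
    apply no_strictMono (m := m) (Nat.lt_succ_self m) (fun i => f i % m)
    · rw [Fin.strictMono_iff_lt_succ]
      intro i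
      exact of_decide_eq_true (hcol i)
    · intro i; exact Nat.mod_lt _ hm
  | false =>
    apply no_strictMono (m := m) (Nat.lt_succ_self m) (fun i => f i / m)
    · rw [Fin.strictMono_iff_lt_succ]
      intro i
      have h1 := of_decide_eq_false (hcol i)
      have h2 : f i.castSucc < f i.succ := hf Fin.castSucc_lt_succ
      by_contra h3
      push Not at h3
      have e1 := Nat.div_add_mod (f i.castSucc) m
      have e2 := Nat.div_add_mod (f i.succ) m
      have h4 : m * (f i.succ / m) ≤ m * (f i.castSucc / m) := Nat.mul_le_mul_left _ h3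
      omega
    · intro i
      rw [Nat.div_lt_iff_lt_mul hm]
      have := hfN i
      nlinarith

end Pool.Agent.helper95.OR
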