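import Pool.Agent.helper95.OR.Num
import Pool.Agent.helper95.OR.Chain

set_option autoImplicit false

namespace Pool.Agent.helper95.OR

open Finset

/-- the upper bound: colourings without a monochromatic power of a path are small. -/
theorem upper {t : ℕ} (ht : 0 < t) {δ : ℝ} (hδ : 0 < δ) :
    ∃ C : ℝ, 0 ≤ C ∧ ∀ n N : ℕ, ∀ c : ℕ → ℕ → Bool, (∀ b, ¬ HasPath c t n N b) →
      (N : ℝ) ≤ C * (gr δ n * gr δ n) := by
  classical
  obtain ⟨ε, hε, hε1, a0, hN⟩ := exists_numA hδ
  obtain ⟨s, b0, hNB⟩ := exists_numB hδ hε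
  obtain ⟨M, hMε⟩ := exists_nat_ge (64 * (s : ℝ) ^ 2 / ε ^ 2)
  have hM : 0 < M := by
    rcases Nat.eq_zero_or_pos M with h | h
    · exfalso
      rw [h] at hMε
      have hs : (0 : ℝ) < s := by
        have := hNB.1
        exact_mod_cast (by omega : 0 < s)
      have : 0 < 64 * (s : ℝ) ^ 2 / ε ^ 2 := by positivity
      simp at hMε
      linarith
    · exact h
  set T := T0 t M + t with hT
  obtain ⟨C, hC, hCb⟩ := phi ht hM (T := T) (by omega) (by omega) hδ hε hε1 hN hNB hMε
  refine ⟨C, hC, ?_⟩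
  intro n N c hno
  obtain ⟨F, hF, hFn⟩ := exists_pot c ht hno
  have hlo : ∀ κ, Free T (Lo c t F κ 0) (range N) := by
    intro κ Q hQ hQc hlo
    obtain ⟨K, hK, hKc⟩ := exists_subset_card_eq (s := Q) (n := t) (by omega)
    have := hlo.2 K hK hKc
    omega
  have hhi : ∀ κ, Free T (Hi c t F κ n) (range N) := by
    intro κ Q hQ hQc hhi
    obtain ⟨K, hK, hKc⟩ := exists_subset_card_eq (s := Q) (n := t) (by omega)
    have h1 := hhi.2 K hK hKc
    have h2 := hFn κ K (hK.trans hQ) hKc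
    omega
  have := hCb c F hF (range N) 0 n 0 n (hlo false) (hhi false) (hlo true) (hhi true)
  simpa using this

end Pool.Agent.helper95.OR
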