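import Pool.Agent.helper95.OR.Phi

set_option autoImplicit false

namespace Pool.Agent.helper95.OR

open Finset Filter Topology

theorem exists_numA {δ : ℝ} (hδ : 0 < δ) :
    ∃ ε : ℝ, 0 < ε ∧ ε < 1 ∧ ∃ a0 : ℕ, NumA δ ε a0 := by
  set θ : ℝ := 2 ^ (-δ) with hθ
  have hθ0 : 0 < θ := by positivity
  have hθ1 : θ < 1 := by
    rw [hθ]
    exact Real.rpow_lt_one_of_one_lt_of_neg (by norm_num) (by linarith)
  refine ⟨(1 - θ) / 2, by linarith, by linarith, ?_⟩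
  have hlim : Tendsto (fun a : ℕ => (((a : ℝ) + 3) / ((a : ℝ) + 1)) ^ (1 + δ)) atTop (𝓝 1) := by
    have h1 : Tendsto (fun a : ℕ => ((a : ℝ) + 3) / ((a : ℝ) + 1)) atTop (𝓝 1) := by
      have h2 : (fun a : ℕ => ((a : ℝ) + 3) / ((a : ℝ) + 1))
          = fun a : ℕ => 1 + 2 * (1 / ((a : ℝ) + 1)) := by
        ext a
        have : (a : ℝ) + 1 ≠ 0 := by positivity
        field_simp
        ring
      rw [h2]
      have h3 : Tendsto (fun a : ℕ => 1 / ((a : ℝ) + 1)) atTop (𝓝 0) :=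
        tendsto_one_div_add_atTop_nhds_zero_nat
      have h4 := (h3.const_mul 2).const_add 1
      simpa using h4
    have h5 := h1.rpow_const (p := 1 + δ) (Or.inl one_ne_zero)
    simpa using h5
  have hev : ∀ᶠ a : ℕ in atTop, (((a : ℝ) + 3) / ((a : ℝ) + 1)) ^ (1 + δ) < (1 + θ) / (2 * θ) := by
    apply hlim.eventually_lt_const
    rw [lt_div_iff₀ (by positivity)]
    linarith
  obtain ⟨a1, ha1⟩ := eventually_atTop.1 hev
  refine ⟨a1 + 1, by omega, ?_⟩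
  intro a ha
  have h1 := ha1 a (by omega)
  have hpos : (0 : ℝ) < (a : ℝ) + 1 := by positivity
  have hpos3 : (0 : ℝ) < (a : ℝ) + 3 := by positivity
  rw [Real.div_rpow hpos3.le hpos.le, div_lt_div_iff₀ (by positivity) (by positivity)] at h1
  unfold gr
  rw [Real.div_rpow hpos3.le (by norm_num)]
  have h2 : (2 : ℝ) ^ (1 + δ) = 2 / θ := by
    rw [hθ, Real.rpow_add (by norm_num), Real.rpow_one, Real.rpow_neg (by norm_num)]
    field_simp
  rw [h2]
  have h3 : 2 * (((a : ℝ) + 3) ^ (1 + δ) / (2 / θ)) = θ * ((a : ℝ) + 3) ^ (1 + δ) := by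
    field_simp
  rw [h3]
  nlinarith

theorem exists_numB {δ ε : ℝ} (hδ : 0 < δ) (hε : 0 < ε) : ∃ s b0 : ℕ, NumB δ ε s b0 := by
  have hlim : Tendsto (fun s : ℕ => ((s : ℝ)) ^ δ) atTop atTop :=
    (tendsto_rpow_atTop hδ).comp tendsto_natCast_atTop_atTop
  obtain ⟨s1, hs1⟩ := eventually_atTop.1 (hlim.eventually_ge_atTop (8 * 4 ^ (1 + δ) / ε))
  set s := max s1 3 with hs
  have hs3 : 3 ≤ s := le_max_right _ _
  have hsb := hs1 s (le_max_left _ _)
  refine ⟨s, 2 * s, hs3, ?_⟩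
  intro b hb
  have hsR : (3 : ℝ) ≤ s := by exact_mod_cast hs3
  have hs0 : (0 : ℝ) < s := by linarith
  constructor
  · have h1 : b / (s - 1) ≤ b / 2 := Nat.div_le_div_left (by omega) (by norm_num)
    omega
  · have hbR : (2 : ℝ) * s < b := by exact_mod_cast hb
    have h1 : (((b / (s - 1) + 1 : ℕ) : ℝ) + 1) ≤ 4 / s * ((b : ℝ) + 1) := by
      have h2 : ((b / (s - 1) : ℕ) : ℝ) ≤ (b : ℝ) / ((s - 1 : ℕ) : ℝ) := Nat.cast_div_le
      have h3 : ((s - 1 : ℕ) : ℝ) = (s : ℝ) - 1 := by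
        rw [Nat.cast_sub (by omega)]; simp
      have h4 : (b : ℝ) / ((s - 1 : ℕ) : ℝ) ≤ 2 * b / s := by
        rw [h3, div_le_div_iff₀ (by linarith) hs0]
        nlinarith
      have h5 : (2 : ℝ) ≤ 2 * (b + 1) / s := by
        rw [le_div_iff₀ hs0]; linarith
      push_cast
      have h6 : 4 / (s : ℝ) * ((b : ℝ) + 1) = 2 * b / s + 2 * (b + 1) / s + 2 / s := by
        field_simp; ring
      rw [h6]
      have h7 : (0 : ℝ) ≤ 2 / s := by positivity
      linarith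
    have h2 : gr δ (b / (s - 1) + 1) ≤ (4 / s * ((b : ℝ) + 1)) ^ (1 + δ) := by
      unfold gr
      apply Real.rpow_le_rpow (by positivity) h1 (by linarith)
    rw [Real.mul_rpow (by positivity) (by positivity), Real.div_rpow (by norm_num) hs0.le] at h2
    have h3 : (s : ℝ) ^ (1 + δ) = s * s ^ δ := by
      rw [Real.rpow_add hs0, Real.rpow_one]
    rw [h3] at h2
    have h4 : (8 * (s : ℝ) / ε) * (4 ^ (1 + δ) / (s * s ^ δ) * ((b : ℝ) + 1) ^ (1 + δ))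
        = ((8 * 4 ^ (1 + δ) / ε) / s ^ δ) * ((b : ℝ) + 1) ^ (1 + δ) := by
      field_simp
    have h5 : (8 * 4 ^ (1 + δ) / ε) / (s : ℝ) ^ δ ≤ 1 := by
      rw [div_le_one (by positivity)]
      exact hsb
    calc (8 * (s : ℝ) / ε) * gr δ (b / (s - 1) + 1)
        ≤ (8 * (s : ℝ) / ε) * (4 ^ (1 + δ) / (s * s ^ δ) * ((b : ℝ) + 1) ^ (1 + δ)) := by gcongr
      _ = ((8 * 4 ^ (1 + δ) / ε) / s ^ δ) * ((b : ℝ) + 1) ^ (1 + δ) := h4
      _ ≤ 1 * ((b : ℝ) + 1) ^ (1 + δ) := by gcongr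
      _ = gr δ b := by unfold gr; ring

end Pool.Agent.helper95.OR
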