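import Pool.Agent.helper95.OR.Psi

set_option autoImplicit false

namespace Pool.Agent.helper95.OR

open Finset

/-- the numerical condition used for cutting a window into `s - 1` pieces. -/
def NumB (δ ε : ℝ) (s b0 : ℕ) : Prop :=
  3 ≤ s ∧ ∀ b : ℕ, b0 < b → b / (s - 1) + 1 < b ∧
    (8 * (s : ℝ) / ε) * gr δ (b / (s - 1) + 1) ≤ gr δ b

theorem gr_mono {δ : ℝ} (hδ : 0 < δ) {a b : ℕ} (h : a ≤ b) : gr δ a ≤ gr δ b := by
  unfold gr
  apply Real.rpow_le_rpow
  · positivity
  · have : (a : ℝ) ≤ b := by exact_mod_cast h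
    linarith
  · linarith

theorem pigeon (g : ℕ → ℕ) (b s : ℕ) (hs : 2 ≤ s) (h : g (s - 1) ≤ g 0 + b) :
    ∃ i, i + 1 < s ∧ g (i + 1) ≤ g i + b / (s - 1) := by
  by_contra hcon
  push Not at hcon
  have h1 : ∀ j, j < s → g 0 + j * (b / (s - 1) + 1) ≤ g j := by
    intro j
    induction j with
    | zero => intro _; simp
    | succ j ih =>
      intro hj
      have e1 := ih (by omega)
      have e2 := hcon j hj
      have e3 : (j + 1) * (b / (s - 1) + 1) = j * (b / (s - 1) + 1) + (b / (s - 1) + 1) := by ring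
      omega
  have h2 := h1 (s - 1) (by omega)
  have h3 : b < (s - 1) * (b / (s - 1) + 1) := Nat.lt_mul_div_succ b (by omega)
  omega

theorem phi {t : ℕ} (ht : 0 < t) {M T : ℕ} (hM : 0 < M) (hT : T0 t M ≤ T) (htT : t ≤ T)
    {δ ε : ℝ} (hδ : 0 < δ) (hε : 0 < ε) (hε1 : ε < 1) {a0 : ℕ} (hN : NumA δ ε a0)
    {s b0 : ℕ} (hNB : NumB δ ε s b0) (hMε : 64 * (s : ℝ) ^ 2 / ε ^ 2 ≤ (M : ℝ)) :
    ∃ C : ℝ, 0 ≤ C ∧ ∀ (c : ℕ → ℕ → Bool) (F : Bool → Finset ℕ → ℕ), Pot c t F →
      ∀ (V : Finset ℕ) (l u l' u' : ℕ), Free T (Lo c t F false l) V →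
        Free T (Hi c t F false u) V → Free T (Lo c t F true l') V →
        Free T (Hi c t F true u') V →
        (V.card : ℝ) ≤ C * (gr δ (u - l) * gr δ (u' - l')) := by
  classical
  have hTpos : 0 < T := lt_of_lt_of_le ht htT
  have hs3 := hNB.1
  have hsR : (3 : ℝ) ≤ s := by exact_mod_cast hs3
  have hMε' : 18 / ε ^ 2 ≤ (M : ℝ) := by
    refine le_trans ?_ hMε
    gcongr
    nlinarith
  obtain ⟨C1, hC1, hC1b⟩ := psi ht hM hT htT hδ hε hε1 hN hMε' ((a0 + 2) * T)
  obtain ⟨C2, hC2, hC2b⟩ := psi ht hM hT htT hδ hε hε1 hN hMε' ((b0 + 2) * T)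
  obtain ⟨C3, hC3, hC3b⟩ := psi ht hM hT htT hδ hε hε1 hN hMε' T
  refine ⟨C1 + C2 + 4 * s / ε * C3 + s / ε, by positivity, ?_⟩
  set C : ℝ := C1 + C2 + 4 * s / ε * C3 + s / ε with hC
  have hC0 : 0 ≤ C := by positivity
  have hCC1 : C1 ≤ C := by
    rw [hC]; have : 0 ≤ C2 + 4 * s / ε * C3 + s / ε := by positivity
    linarith
  have hCC2 : C2 ≤ C := by
    rw [hC]; have : 0 ≤ C1 + 4 * s / ε * C3 + s / ε := by positivity
    linarith
  have hCC3 : 4 * s / ε * C3 ≤ C := by
    rw [hC]; have : 0 ≤ C1 + C2 + s / ε := by positivity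
    linarith
  have hCC4 : s / ε ≤ C := by
    rw [hC]; have : 0 ≤ C1 + C2 + 4 * s / ε * C3 := by positivity
    linarith
  intro c F hF V l u l' u' hlo hhi hlo' hhi'
  generalize hn : (u - l) + (u' - l') = n
  induction n using Nat.strong_induction_on generalizing V l u l' u' with
  | _ n ihn =>
    set a := u - l with ha
    set b := u' - l' with hb
    have hga := gr_one_le hδ a
    have hgb := gr_one_le hδ b
    have hgab : 1 ≤ gr δ a * gr δ b := one_le_mul_of_one_le_of_one_le hga hgb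
    by_cases hsa : a ≤ a0
    · have h1 := hC1b c F hF true V l' u' hlo' hhi' (by
        intro Q hQ hcl hQc
        have := clq_card_lt hF htT hlo hhi hQ hcl
        rw [← ha, hQc] at this
        have h3 : (a + 2) * T ≤ (a0 + 2) * T := Nat.mul_le_mul_right _ (by omega)
        omega)
      calc (V.card : ℝ) ≤ C1 * gr δ b := h1
        _ ≤ C * gr δ b := by gcongr
        _ = C * (1 * gr δ b) := by ring
        _ ≤ C * (gr δ a * gr δ b) := by gcongr
    push Not at hsa
    by_cases hsb : b ≤ b0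
    · have h1 := hC2b c F hF false V l u hlo hhi (by
        intro Q hQ hcl hQc
        have := clq_card_lt hF htT hlo' hhi' hQ hcl
        rw [← hb, hQc] at this
        have h3 : (b + 2) * T ≤ (b0 + 2) * T := Nat.mul_le_mul_right _ (by omega)
        omega)
      calc (V.card : ℝ) ≤ C2 * gr δ a := h1
        _ ≤ C * gr δ a := by gcongr
        _ = C * (gr δ a * 1) := by ring
        _ ≤ C * (gr δ a * gr δ b) := by gcongr
    push Not at hsb
    have ha1 := hN.1
    obtain ⟨V1, V2, W, 𝓗, 𝓛, hV1, hV2, hW, hcard, hf1, hf2, hT1, hT2, hW1, hW2⟩ :=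
      split (c := c) (t := t) (F := F) hTpos false (l + a / 2) V
    have hb1 : (V1.card : ℝ) ≤ C * (gr δ (a / 2) * gr δ b) := by
      have := ihn (a / 2 + b) (by omega) V1 l (l + a / 2) l' u' (hlo.mono hV1) hf1
        (hlo'.mono hV1) (hhi'.mono hV1) (by omega)
      rw [show l + a / 2 - l = a / 2 by omega] at this
      exact this
    have hb2 : (V2.card : ℝ) ≤ C * (gr δ (a - a / 2) * gr δ b) := by
      have := ihn (a - a / 2 + b) (by omega) V2 (l + a / 2) u l' u' hf2 (hhi.mono hV2)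
        (hlo'.mono hV2) (hhi'.mono hV2) (by omega)
      rw [show u - (l + a / 2) = a - a / 2 by omega] at this
      exact this
    by_cases hWs : (W.card : ℝ) ≤ ε * V.card
    · have h1 := gr_half hδ (a := a) (b := a / 2) (by omega)
      have h2 := gr_half hδ (a := a) (b := a - a / 2) (by omega)
      have h3 := hN.2 a hsa
      have h4 : (V.card : ℝ) = V1.card + V2.card + W.card := by exact_mod_cast hcard
      have h5 : C * (gr δ (a / 2) * gr δ b) ≤ C * ((((a : ℝ) + 3) / 2) ^ (1 + δ) * gr δ b) := by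
        gcongr
      have h6 : C * (gr δ (a - a / 2) * gr δ b)
          ≤ C * ((((a : ℝ) + 3) / 2) ^ (1 + δ) * gr δ b) := by gcongr
      have h7 : C * ((2 * (((a : ℝ) + 3) / 2) ^ (1 + δ)) * gr δ b)
          ≤ C * (((1 - ε) * gr δ a) * gr δ b) := by gcongr
      have h8 : (1 - ε) * (V.card : ℝ) ≤ (1 - ε) * (C * (gr δ a * gr δ b)) := by nlinarith
      exact le_of_mul_le_mul_left h8 (by linarith)
    push Not at hWs
    have hspos : 0 < s := by omega
    set w := W.card / s with hw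
    by_cases hw0 : w = 0
    · have h1 : W.card < s := by
        rw [hw, Nat.div_eq_zero_iff] at hw0
        omega
      have h2 : (W.card : ℝ) ≤ s := by exact_mod_cast h1.le
      have h3 : (V.card : ℝ) ≤ s / ε := by
        rw [le_div_iff₀ hε]; nlinarith
      calc (V.card : ℝ) ≤ C := h3.trans hCC4
        _ = C * 1 := (mul_one _).symm
        _ ≤ C * (gr δ a * gr δ b) := by gcongr
    have hwpos : 0 < w := Nat.pos_of_ne_zero hw0
    have hwR : (0 : ℝ) < w := by exact_mod_cast hwpos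
    have hsw : s * w ≤ W.card := Nat.mul_div_le _ _
    have hWw : (W.card : ℝ) ≤ 2 * s * w := by
      have h1 : W.card < s * (w + 1) := by
        rw [hw]; exact Nat.lt_mul_div_succ _ hspos
      have h2 : s * (w + 1) ≤ 2 * s * w := by nlinarith
      exact_mod_cast (h1.le.trans h2)
    have hVw : ε * V.card ≤ 2 * s * w := hWs.le.trans hWw
    by_cases hwb : (w : ℝ) ≤ 2 * (C3 * gr δ a)
    · have h1 : (V.card : ℝ) ≤ 4 * s / ε * C3 * gr δ a := by
        have h2 : ε * (V.card : ℝ) ≤ 4 * s * C3 * gr δ a := by nlinarith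
        rw [div_mul_eq_mul_div, div_mul_eq_mul_div, le_div_iff₀ hε]
        linarith
      calc (V.card : ℝ) ≤ 4 * s / ε * C3 * gr δ a := h1
        _ ≤ C * gr δ a := by gcongr
        _ = C * (gr δ a * 1) := by ring
        _ ≤ C * (gr δ a * gr δ b) := by gcongr
    push Not at hwb
    obtain ⟨f, hf, hfb⟩ := exists_pieces w s W hsw
    have hfV : ∀ j < s, f j ⊆ V := fun j hj => (hf j hj).1.trans hW
    -- levels
    let P : ℕ → ℕ → Prop := fun j g => ∃ 𝒜 : Finset (Finset ℕ),
      Tiling T (Hi c t F true g) (f j) 𝒜 ∧ w ≤ 2 * (𝒜.biUnion id).card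
    have hP0 : ∀ j < s, P j 0 := by
      intro j hj
      obtain ⟨𝒜, h1, h2⟩ := exists_tiling hTpos (Hi c t F true 0) _ (f j) rfl
      refine ⟨𝒜, h1, ?_⟩
      have h3 : ((f j \ 𝒜.biUnion id).card : ℝ) ≤ C3 * gr δ a := by
        have hsub : f j \ 𝒜.biUnion id ⊆ V := sdiff_subset.trans (hfV j hj)
        apply hC3b c F hF false _ l u (hlo.mono hsub) (hhi.mono hsub)
        intro Q hQ hcl hQc
        exact h2 Q hQ hQc ⟨hcl, fun K _ _ => Nat.zero_le _⟩
      rw [card_sdiff_of_subset h1.union_sub, (hf j hj).2] at h3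
      have h4 : (𝒜.biUnion id).card ≤ w := by
        rw [← (hf j hj).2]; exact card_le_card h1.union_sub
      rw [Nat.cast_sub h4] at h3
      have h5 : (w : ℝ) ≤ 2 * ((𝒜.biUnion id).card : ℝ) := by linarith
      exact_mod_cast h5
    have hPu : ∀ j < s, ∀ g, u' ≤ g → ¬ P j g := by
      intro j hj g hg ⟨𝒜, h1, h2⟩
      have hne : (𝒜.biUnion id).Nonempty := by rw [← card_pos]; omega
      obtain ⟨x, hx⟩ := hne
      obtain ⟨Q, hQ, _⟩ := mem_biUnion.1 hx
      apply hhi' Q ((h1.sub Q hQ).trans (hfV j hj)) (h1.card Q hQ)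
      have h3 := h1.prop Q hQ
      exact ⟨h3.1, fun K hK hKc => hg.trans (h3.2 K hK hKc)⟩
    let g : ℕ → ℕ := fun j => Nat.findGreatest (P j) u'
    have hg1 : ∀ j < s, P j (g j) := fun j hj =>
      Nat.findGreatest_spec (Nat.zero_le u') (hP0 j hj)
    have hg2 : ∀ j < s, g j < u' := by
      intro j hj
      by_contra hcon
      push Not at hcon
      exact hPu j hj _ hcon (hg1 j hj)
    have hg3 : ∀ j < s, ¬ P j (g j + 1) := by
      intro j hj
      exact Nat.findGreatest_is_greatest (Nat.lt_succ_self _) (hg2 j hj)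
    obtain ⟨i, hi, hgi⟩ := pigeon (fun j => max (g j) l') b s (by omega) (by
      have := hg2 (s - 1) (by omega)
      omega)
    have hgi' : max (g (i + 1)) l' ≤ max (g i) l' + b / (s - 1) := hgi
    obtain ⟨𝒜, hA1, hA2⟩ := hg1 i (by omega)
    obtain ⟨𝒞, hCt, hCf⟩ := exists_tiling hTpos (Hi c t F true (g (i + 1) + 1)) _ (f (i + 1)) rfl
    set Z := f (i + 1) \ 𝒞.biUnion id with hZ
    have hZf : Z ⊆ f (i + 1) := sdiff_subset
    have hZV : Z ⊆ V := hZf.trans (hfV _ hi)
    have hZc : w < 2 * Z.card := by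
      have h1 : ¬ w ≤ 2 * (𝒞.biUnion id).card := fun h => hg3 (i + 1) hi ⟨𝒞, hCt, h⟩
      have h2 : Z.card = w - (𝒞.biUnion id).card := by
        rw [hZ, card_sdiff_of_subset hCt.union_sub, (hf _ hi).2]
      omega
    obtain ⟨ℬ, hB1, hB2⟩ := exists_tiling hTpos (Lo c t F true (g i)) _ Z rfl
    set X := 𝒜.biUnion id with hX
    set Y := ℬ.biUnion id with hY
    have hXf : X ⊆ f i := hA1.union_sub
    have hYZ : Y ⊆ Z := hB1.union_sub
    have hbef : Bef X Y := fun x hx y hy => hfb i (i + 1) (by omega) hi x (hXf hx) y (hZf (hYZ hy))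
    have hblue := sparse hF ht hM hT (hA1.mono (hfV i (by omega))) (hB1.mono hZV)
      (le_refl X) (le_refl Y) hbef
    have hred := sparse hF ht hM hT hT1 hT2 (hXf.trans ((hf i (by omega)).1.trans hW1))
      (hYZ.trans (hZf.trans ((hf _ hi).1.trans hW2))) hbef
    have htot := ep_total c false X Y
    simp only [Bool.not_false] at htot
    have hXY : (M : ℝ) * (X.card * Y.card) ≤ 2 * (V.card : ℝ) ^ 2 := by
      have h1 : M * (X.card * Y.card) ≤ 2 * V.card ^ 2 := by
        rw [← htot]; nlinarith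
      exact_mod_cast h1
    have hYw : 4 * (Y.card : ℝ) ≤ w := by
      have h1 : (w : ℝ) ≤ 2 * X.card := by exact_mod_cast hA2
      have h2 : (M : ℝ) * (w * Y.card) ≤ 4 * (V.card : ℝ) ^ 2 := by
        have hMR : (0 : ℝ) ≤ M := Nat.cast_nonneg _
        have hYR : (0 : ℝ) ≤ Y.card := Nat.cast_nonneg _
        calc (M : ℝ) * (w * Y.card) ≤ M * ((2 * X.card) * Y.card) := by gcongr
          _ = 2 * (M * (X.card * Y.card)) := by ring
          _ ≤ 2 * (2 * (V.card : ℝ) ^ 2) := by gcongr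
          _ = _ := by ring
      have h3 : (ε * V.card) ^ 2 ≤ (2 * s * w) ^ 2 := pow_le_pow_left₀ (by positivity) hVw 2
      have h4 : ε ^ 2 * (M * (w * Y.card)) ≤ 16 * s ^ 2 * w ^ 2 := by
        have : ε ^ 2 * (M * (w * Y.card)) ≤ ε ^ 2 * (4 * (V.card : ℝ) ^ 2) := by gcongr
        nlinarith
      have h5 : 64 * (s : ℝ) ^ 2 ≤ ε ^ 2 * M := by
        rw [div_le_iff₀ (by positivity)] at hMε
        linarith
      have h6 : (64 * (s : ℝ) ^ 2) * (w * Y.card) ≤ ε ^ 2 * (M * (w * Y.card)) := by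
        calc (64 * (s : ℝ) ^ 2) * (w * Y.card) ≤ (ε ^ 2 * M) * (w * Y.card) := by gcongr
          _ = _ := by ring
      have h7 : (16 * (s : ℝ) ^ 2 * w) * (4 * Y.card) ≤ (16 * (s : ℝ) ^ 2 * w) * w := by
        nlinarith
      exact le_of_mul_le_mul_left h7 (by positivity)
    set Z' := Z \ Y with hZ'
    have hZ'Z : Z' ⊆ Z := sdiff_subset
    have hZ'V : Z' ⊆ V := hZ'Z.trans hZV
    have hZ'c : (w : ℝ) ≤ 4 * Z'.card := by
      have h1 : Z'.card + Y.card = Z.card := by
        rw [hZ', card_sdiff_of_subset hYZ]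
        have := card_le_card hYZ
        omega
      have h2 : (Z'.card : ℝ) + Y.card = Z.card := by exact_mod_cast h1
      have h3 : (w : ℝ) < 2 * Z.card := by exact_mod_cast hZc
      linarith
    have hNB2 := hNB.2 b hsb
    have hwin : (g (i + 1) + 1) - max (g i) l' ≤ b / (s - 1) + 1 := by
      have : g (i + 1) ≤ max (g (i + 1)) l' := le_max_left _ _
      clear_value a b
      generalize b / (s - 1) = q at hgi' ⊢
      omega
    have hfin := ihn (a + ((g (i + 1) + 1) - max (g i) l')) (by omega) Z' l u (max (g i) l')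
      (g (i + 1) + 1) (hlo.mono hZ'V) (hhi.mono hZ'V) (by
        rcases le_total (g i) l' with h | h
        · rw [max_eq_right h]; exact hlo'.mono hZ'V
        · rw [max_eq_left h]; exact hB2) (hCf.mono hZ'Z) rfl
    have hgm := gr_mono hδ hwin
    have hfin2 : (Z'.card : ℝ) ≤ C * (gr δ a * gr δ (b / (s - 1) + 1)) := by
      refine hfin.trans ?_
      gcongr
    have hfin3 : (V.card : ℝ) ≤ (8 * s / ε) * (C * (gr δ a * gr δ (b / (s - 1) + 1))) := by
      have h1 : (V.card : ℝ) ≤ 8 * s / ε * Z'.card := by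
        rw [div_mul_eq_mul_div, le_div_iff₀ hε]
        have hs0 : (0 : ℝ) ≤ s := by linarith
        nlinarith
      refine h1.trans ?_
      gcongr
    calc (V.card : ℝ) ≤ (8 * s / ε) * (C * (gr δ a * gr δ (b / (s - 1) + 1))) := hfin3
      _ = C * (gr δ a * ((8 * s / ε) * gr δ (b / (s - 1) + 1))) := by ring
      _ ≤ C * (gr δ a * gr δ b) := by gcongr; exact hNB2.2

end Pool.Agent.helper95.OR
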