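import Pool.Agent.helper95.OR.Tile

set_option autoImplicit false

namespace Pool.Agent.helper95.OR

open Finset

section
variable {c : ℕ → ℕ → Bool} {t : ℕ} {F : Bool → Finset ℕ → ℕ}

/-- splitting a set by low and high cliques. -/
theorem split {T : ℕ} (hT : 0 < T) (κ : Bool) (m : ℕ) (V : Finset ℕ) :
    ∃ V1 V2 W : Finset ℕ, ∃ 𝓗 𝓛 : Finset (Finset ℕ), V1 ⊆ V ∧ V2 ⊆ V ∧ W ⊆ V ∧
      V.card = V1.card + V2.card + W.card ∧ Free T (Hi c t F κ m) V1 ∧
      Free T (Lo c t F κ m) V2 ∧ Tiling T (Hi c t F κ m) V 𝓗 ∧ Tiling T (Lo c t F κ m) V 𝓛 ∧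
      W ⊆ 𝓗.biUnion id ∧ W ⊆ 𝓛.biUnion id := by
  classical
  obtain ⟨𝓗, h1, h2⟩ := exists_tiling hT (Hi c t F κ m) V.card V rfl
  obtain ⟨𝓛, h3, h4⟩ := exists_tiling hT (Lo c t F κ m) _ (𝓗.biUnion id) rfl
  have hX : 𝓗.biUnion id ⊆ V := h1.union_sub
  have hW : 𝓛.biUnion id ⊆ 𝓗.biUnion id := h3.union_sub
  refine ⟨V \ 𝓗.biUnion id, 𝓗.biUnion id \ 𝓛.biUnion id, 𝓛.biUnion id, 𝓗, 𝓛, sdiff_subset,
    sdiff_subset.trans hX, hW.trans hX, ?_, h2, h4, h1, h3.mono hX, hW, le_refl _⟩
  rw [card_sdiff_of_subset hX, card_sdiff_of_subset hW]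
  have e1 := card_le_card hX
  have e2 := card_le_card hW
  omega

end

/-- the growth function. -/
noncomputable def gr (δ : ℝ) (a : ℕ) : ℝ := ((a : ℝ) + 1) ^ (1 + δ)

theorem gr_one_le {δ : ℝ} (hδ : 0 < δ) (a : ℕ) : 1 ≤ gr δ a := by
  unfold gr
  apply Real.one_le_rpow
  · have : (0 : ℝ) ≤ a := Nat.cast_nonneg a
    linarith
  · linarith

/-- the numerical condition used for halving a window. -/
def NumA (δ ε : ℝ) (a0 : ℕ) : Prop :=
  1 ≤ a0 ∧ ∀ a : ℕ, a0 < a → 2 * (((a : ℝ) + 3) / 2) ^ (1 + δ) ≤ (1 - ε) * gr δ a

theorem gr_half {δ : ℝ} (hδ : 0 < δ) {a b : ℕ} (h : 2 * b ≤ a + 1) :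
    gr δ b ≤ (((a : ℝ) + 3) / 2) ^ (1 + δ) := by
  unfold gr
  apply Real.rpow_le_rpow
  · positivity
  · have : (2 : ℝ) * b ≤ a + 1 := by exact_mod_cast h
    linarith
  · linarith

theorem psi {t : ℕ} (ht : 0 < t) {M T : ℕ} (hM : 0 < M) (hT : T0 t M ≤ T) (htT : t ≤ T)
    {δ ε : ℝ} (hδ : 0 < δ) (hε : 0 < ε) (hε1 : ε < 1) {a0 : ℕ} (hN : NumA δ ε a0)
    (hMε : 18 / ε ^ 2 ≤ (M : ℝ)) :
    ∀ S : ℕ, ∃ C : ℝ, 0 ≤ C ∧ ∀ (c : ℕ → ℕ → Bool) (F : Bool → Finset ℕ → ℕ), Pot c t F →
      ∀ (κ : Bool) (V : Finset ℕ) (l u : ℕ), Free T (Lo c t F κ l) V →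
        Free T (Hi c t F κ u) V → (∀ Q ⊆ V, Clq c (!κ) Q → Q.card ≠ S) →
        (V.card : ℝ) ≤ C * gr δ (u - l) := by
  classical
  have hTpos : 0 < T := lt_of_lt_of_le ht htT
  intro S
  induction S with
  | zero =>
    refine ⟨0, le_refl _, ?_⟩
    intro c F _ κ V l u _ _ hS
    exact absurd rfl (hS ∅ (empty_subset _) (fun x hx => absurd hx (notMem_empty _)))
  | succ S ihS =>
    obtain ⟨CS, hCS, hCSb⟩ := ihS
    set R : ℕ := ram ((a0 + 2) * T) (S + 1) with hR
    refine ⟨R + 6 / ε * CS + 6 / ε, by positivity, ?_⟩
    set C : ℝ := R + 6 / ε * CS + 6 / ε with hC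
    have hC0 : 0 ≤ C := by positivity
    intro c F hF κ V l u hlo hhi hS
    generalize ha : u - l = a
    induction a using Nat.strong_induction_on generalizing V l u with
    | _ a iha =>
      have hga := gr_one_le hδ a
      by_cases hsm : a ≤ a0
      · -- small window
        have hlt : V.card < R := by
          by_contra hcon
          push Not at hcon
          obtain ⟨Q, hQ, h1⟩ := ramsey c κ _ _ V hcon
          rcases h1 with ⟨h1, h2⟩ | ⟨h1, h2⟩
          · have := clq_card_lt hF htT hlo hhi hQ h2
            rw [ha, h1] at this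
            have h3 : (a + 2) * T ≤ (a0 + 2) * T := Nat.mul_le_mul_right _ (by omega)
            omega
          · exact hS Q hQ h2 h1
        have h1 : (V.card : ℝ) ≤ R := by exact_mod_cast hlt.le
        have h2 : (R : ℝ) ≤ C := by
          rw [hC]
          have : 0 ≤ 6 / ε * CS + 6 / ε := by positivity
          linarith
        calc (V.card : ℝ) ≤ C := h1.trans h2
          _ = C * 1 := (mul_one _).symm
          _ ≤ C * gr δ a := by gcongr
      · push Not at hsm
        have ha1 := hN.1
        obtain ⟨V1, V2, W, 𝓗, 𝓛, hV1, hV2, hW, hcard, hf1, hf2, hT1, hT2, hW1, hW2⟩ :=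
          split (c := c) (t := t) (F := F) hTpos κ (l + a / 2) V
        have hb1 : (V1.card : ℝ) ≤ C * gr δ (a / 2) := by
          apply iha (a / 2) (by omega) V1 l (l + a / 2) (hlo.mono hV1) hf1
          · intro Q hQ; exact hS Q (hQ.trans hV1)
          · omega
        have hb2 : (V2.card : ℝ) ≤ C * gr δ (a - a / 2) := by
          apply iha (a - a / 2) (by omega) V2 (l + a / 2) u hf2 (hhi.mono hV2)
          · intro Q hQ; exact hS Q (hQ.trans hV2)
          · omega
        by_cases hWs : (W.card : ℝ) ≤ ε * V.card
        · -- few doubly covered elements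
          have h1 := gr_half hδ (a := a) (b := a / 2) (by omega)
          have h2 := gr_half hδ (a := a) (b := a - a / 2) (by omega)
          have h3 := hN.2 a hsm
          have h4 : (V.card : ℝ) = V1.card + V2.card + W.card := by exact_mod_cast hcard
          have h5 : C * gr δ (a / 2) ≤ C * (((a : ℝ) + 3) / 2) ^ (1 + δ) := by gcongr
          have h6 : C * gr δ (a - a / 2) ≤ C * (((a : ℝ) + 3) / 2) ^ (1 + δ) := by gcongr
          have h7 : C * (2 * (((a : ℝ) + 3) / 2) ^ (1 + δ)) ≤ C * ((1 - ε) * gr δ a) := by gcongr
          have h8 : (1 - ε) * (V.card : ℝ) ≤ (1 - ε) * (C * gr δ a) := by nlinarith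
          exact le_of_mul_le_mul_left h8 (by linarith)
        · push Not at hWs
          set w := W.card / 2 with hw
          by_cases hw0 : w = 0
          · have h1 : W.card ≤ 1 := by omega
            have h2 : (W.card : ℝ) ≤ 1 := by exact_mod_cast h1
            have h3 : (V.card : ℝ) ≤ 1 / ε := by
              rw [le_div_iff₀ hε]; nlinarith
            have h4 : 1 / ε ≤ 6 / ε := by gcongr; norm_num
            have h5 : 6 / ε ≤ C := by
              rw [hC]
              have : 0 ≤ (R : ℝ) + 6 / ε * CS := by positivity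
              linarith
            calc (V.card : ℝ) ≤ C := by linarith
              _ = C * 1 := (mul_one _).symm
              _ ≤ C * gr δ a := by gcongr
          · have hwpos : 0 < w := Nat.pos_of_ne_zero hw0
            have hwR : (0 : ℝ) < w := by exact_mod_cast hwpos
            have hWw : (W.card : ℝ) ≤ 3 * w := by
              have : W.card ≤ 3 * w := by omega
              exact_mod_cast this
            obtain ⟨f, hf, hfb⟩ := exists_pieces w 2 W (by omega)
            obtain ⟨h01, h02⟩ := hf 0 (by omega)
            obtain ⟨h11, h12⟩ := hf 1 (by omega)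
            have hbef := hfb 0 1 (by omega) (by omega)
            have hsp := sparse hF ht hM hT hT1 hT2 (h01.trans hW1) (h11.trans hW2) hbef
            have hVw : ε * V.card < 3 * w := lt_of_lt_of_le hWs hWw
            have hex : ∃ x ∈ f 0, 2 * ((f 1).filter (fun y => c x y = κ)).card ≤ w := by
              by_contra hcon
              push Not at hcon
              have h1 : w * w ≤ 2 * ep c κ (f 0) (f 1) := by
                rw [ep_sum_left, mul_sum]
                calc w * w = ∑ _x ∈ f 0, w := by rw [sum_const, smul_eq_mul, h02]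
                  _ ≤ _ := sum_le_sum (fun x hx => (hcon x hx).le)
              have h1' : w * w < 2 * ep c κ (f 0) (f 1) := by
                rw [ep_sum_left, mul_sum]
                calc w * w = ∑ _x ∈ f 0, w := by rw [sum_const, smul_eq_mul, h02]
                  _ < _ := sum_lt_sum_of_nonempty (by rw [← card_pos]; omega)
                      (fun x hx => hcon x hx)
              have h2 : (M : ℝ) * (w * w) < 2 * (M * ep c κ (f 0) (f 1)) := by
                have : (w : ℝ) * w < 2 * ep c κ (f 0) (f 1) := by exact_mod_cast h1'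
                have hMR : (0 : ℝ) < M := by exact_mod_cast hM
                nlinarith
              have h3 : (M : ℝ) * ep c κ (f 0) (f 1) ≤ (V.card : ℝ) ^ 2 := by exact_mod_cast hsp
              have h4 : (ε * V.card) ^ 2 ≤ (3 * w) ^ 2 := by
                apply pow_le_pow_left₀ (by positivity) hVw.le
              have h5 : ε ^ 2 * (M * (w * w)) < 18 * (w * w : ℝ) := by
                have : ε ^ 2 * (M * (w * w : ℝ)) < ε ^ 2 * (2 * (V.card : ℝ) ^ 2) := by
                  apply mul_lt_mul_of_pos_left _ (by positivity)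
                  linarith
                nlinarith
              have h6 : 18 ≤ ε ^ 2 * (M : ℝ) := by
                rw [div_le_iff₀ (by positivity)] at hMε
                linarith
              have hww : (0 : ℝ) < w * w := by positivity
              nlinarith
            obtain ⟨x, hx, hxd⟩ := hex
            set Y := (f 1).filter (fun y => ¬ c x y = κ) with hY
            have hYc : ((f 1).filter (fun y => c x y = κ)).card + Y.card = w := by
              rw [← h12]
              exact card_filter_add_card_filter_not (s := f 1) (fun y => c x y = κ)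
            have hYw : w ≤ 2 * Y.card := by omega
            have hYV : Y ⊆ V := (filter_subset _ _).trans (h11.trans hW)
            have hYb := hCSb c F hF κ Y l u (hlo.mono hYV) (hhi.mono hYV) (by
              intro Q hQ hcl hQc
              apply hS (insert x Q)
              · intro z hz
                rcases mem_insert.1 hz with rfl | hz
                · exact hW (h01 hx)
                · exact hYV (hQ hz)
              · intro y hy z hz hyz
                rcases mem_insert.1 hy with h7 | h7
                · rcases mem_insert.1 hz with h8 | h8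
                  · omega
                  · have h9 := (mem_filter.1 (hQ h8)).2
                    rw [h7]
                    cases hc : c x z <;> cases hk : κ <;> simp_all
                · rcases mem_insert.1 hz with h8 | h8
                  · have h9 := hbef x hx y (mem_filter.1 (hQ h7)).1
                    omega
                  · exact hcl y h7 z h8 hyz
              · rw [card_insert_of_notMem, hQc]
                intro hxQ
                have h9 := hbef x hx x (mem_filter.1 (hQ hxQ)).1
                omega)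
            rw [ha] at hYb
            have h1 : (w : ℝ) ≤ 2 * Y.card := by exact_mod_cast hYw
            have h2 : ε * (V.card : ℝ) ≤ 6 * (CS * gr δ a) := by nlinarith
            have h3 : (V.card : ℝ) ≤ 6 / ε * CS * gr δ a := by
              rw [div_mul_eq_mul_div, div_mul_eq_mul_div, le_div_iff₀ hε]
              nlinarith
            have h4 : 6 / ε * CS ≤ C := by
              rw [hC]
              have : 0 ≤ (R : ℝ) + 6 / ε := by positivity
              linarith
            calc (V.card : ℝ) ≤ 6 / ε * CS * gr δ a := h3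
              _ ≤ C * gr δ a := by gcongr

end Pool.Agent.helper95.OR
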