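import Pool.Agent.helper95.OR.Basic

set_option autoImplicit false

namespace Pool.Agent.helper95.OR

open Finset

/-- `V` contains no `T`-element subset satisfying `P`. -/
def Free (T : ℕ) (P : Finset ℕ → Prop) (V : Finset ℕ) : Prop :=
  ∀ Q ⊆ V, Q.card = T → ¬ P Q

theorem Free.mono {T : ℕ} {P : Finset ℕ → Prop} {V V' : Finset ℕ} (h : Free T P V)
    (hV : V' ⊆ V) : Free T P V' := fun Q hQ => h Q (hQ.trans hV)

/-- a family of pairwise disjoint `T`-subsets of `V` satisfying `P`. -/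
structure Tiling (T : ℕ) (P : Finset ℕ → Prop) (V : Finset ℕ) (𝓐 : Finset (Finset ℕ)) : Prop where
  sub : ∀ Q ∈ 𝓐, Q ⊆ V
  card : ∀ Q ∈ 𝓐, Q.card = T
  prop : ∀ Q ∈ 𝓐, P Q
  disj : ∀ Q ∈ 𝓐, ∀ Q' ∈ 𝓐, Q ≠ Q' → Disjoint Q Q'

theorem Tiling.mono {T : ℕ} {P : Finset ℕ → Prop} {V V' : Finset ℕ} {𝓐 : Finset (Finset ℕ)}
    (h : Tiling T P V 𝓐) (hV : V ⊆ V') : Tiling T P V' 𝓐 :=
  ⟨fun Q hQ => (h.sub Q hQ).trans hV, h.card, h.prop, h.disj⟩

theorem Tiling.union_sub {T : ℕ} {P : Finset ℕ → Prop} {V : Finset ℕ} {𝓐 : Finset (Finset ℕ)}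
    (h : Tiling T P V 𝓐) : 𝓐.biUnion id ⊆ V := by
  intro x hx
  obtain ⟨Q, hQ, hxQ⟩ := mem_biUnion.1 hx
  exact h.sub Q hQ hxQ

theorem Tiling.card_union {T : ℕ} {P : Finset ℕ → Prop} {V : Finset ℕ} {𝓐 : Finset (Finset ℕ)}
    (h : Tiling T P V 𝓐) : (𝓐.biUnion id).card = 𝓐.card * T := by
  have h1 := card_biUnion (s := 𝓐) (t := id) (fun Q hQ Q' hQ' hne => h.disj Q hQ Q' hQ' hne)
  have h2 : ∑ u ∈ 𝓐, (id u : Finset ℕ).card = ∑ _u ∈ 𝓐, T :=
    sum_congr rfl (fun Q hQ => h.card Q hQ)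
  rw [h1, h2, sum_const, smul_eq_mul]

theorem Tiling.card_le {T : ℕ} {P : Finset ℕ → Prop} {V : Finset ℕ} {𝓐 : Finset (Finset ℕ)}
    (h : Tiling T P V 𝓐) : 𝓐.card * T ≤ V.card := by
  rw [← h.card_union]
  exact card_le_card h.union_sub

theorem exists_tiling {T : ℕ} (hT : 0 < T) (P : Finset ℕ → Prop) :
    ∀ m : ℕ, ∀ V : Finset ℕ, V.card = m →
      ∃ 𝓐, Tiling T P V 𝓐 ∧ Free T P (V \ 𝓐.biUnion id) := by
  classical
  intro m
  induction m using Nat.strong_induction_on with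
  | _ m ih =>
    intro V hV
    by_cases h : Free T P V
    · refine ⟨∅, ⟨?_, ?_, ?_, ?_⟩, ?_⟩
      · intro Q hQ; exact absurd hQ (notMem_empty _)
      · intro Q hQ; exact absurd hQ (notMem_empty _)
      · intro Q hQ; exact absurd hQ (notMem_empty _)
      · intro Q hQ; exact absurd hQ (notMem_empty _)
      · exact h.mono sdiff_subset
    · unfold Free at h
      push Not at h
      obtain ⟨Q, hQ, hQc, hP⟩ := h
      have h1 : (V \ Q).card = m - T := by rw [card_sdiff_of_subset hQ]; omega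
      have h2 : Q.card ≤ V.card := card_le_card hQ
      obtain ⟨𝓐, hA, hfree⟩ := ih (m - T) (by omega) (V \ Q) h1
      have hdis : ∀ R ∈ 𝓐, Disjoint R Q := by
        intro R hR
        exact disjoint_of_subset_left (hA.sub R hR) sdiff_disjoint
      refine ⟨insert Q 𝓐, ⟨?_, ?_, ?_, ?_⟩, ?_⟩
      · intro R hR
        rcases mem_insert.1 hR with rfl | hR
        · exact hQ
        · exact (hA.sub R hR).trans sdiff_subset
      · intro R hR
        rcases mem_insert.1 hR with rfl | hR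
        · exact hQc
        · exact hA.card R hR
      · intro R hR
        rcases mem_insert.1 hR with rfl | hR
        · exact hP
        · exact hA.prop R hR
      · intro R hR R' hR' hne
        rcases mem_insert.1 hR with h1 | h1
        · rcases mem_insert.1 hR' with h2 | h2
          · exact absurd (h1.trans h2.symm) hne
          · rw [h1]; exact (hdis R' h2).symm
        · rcases mem_insert.1 hR' with h2 | h2
          · rw [h2]; exact hdis R h1
          · exact hA.disj R h1 R' h2 hne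
      · apply hfree.mono
        intro x hx
        rw [biUnion_insert] at hx
        simp only [mem_sdiff, mem_union, id] at hx ⊢
        tauto

/-- the potential inequality: the value increases along linked `t`-cliques. -/
def Pot (c : ℕ → ℕ → Bool) (t : ℕ) (F : Bool → Finset ℕ → ℕ) : Prop :=
  ∀ κ : Bool, ∀ K K' : Finset ℕ, K.card = t → K'.card = t → Bef K K' → Clq c κ (K ∪ K') →
    F κ K < F κ K'

/-- `Q` is a `κ`-clique all of whose `t`-subsets have value at least `m`. -/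
def Hi (c : ℕ → ℕ → Bool) (t : ℕ) (F : Bool → Finset ℕ → ℕ) (κ : Bool) (m : ℕ)
    (Q : Finset ℕ) : Prop :=
  Clq c κ Q ∧ ∀ K ⊆ Q, K.card = t → m ≤ F κ K

/-- `Q` is a `κ`-clique all of whose `t`-subsets have value less than `m`. -/
def Lo (c : ℕ → ℕ → Bool) (t : ℕ) (F : Bool → Finset ℕ → ℕ) (κ : Bool) (m : ℕ)
    (Q : Finset ℕ) : Prop :=
  Clq c κ Q ∧ ∀ K ⊆ Q, K.card = t → F κ K < m

section
variable {c : ℕ → ℕ → Bool} {t : ℕ} {F : Bool → Finset ℕ → ℕ}

theorem noK_of_hi_lo (hF : Pot c t F) {κ : Bool} {m : ℕ} {Q Q' A B : Finset ℕ}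
    (hQ : Hi c t F κ m Q) (hQ' : Lo c t F κ m Q') (hA : A ⊆ Q) (hB : B ⊆ Q') (hAB : Bef A B) :
    NoK c κ t A B := by
  intro P hP P' hP' h1 h2 h3
  have hb : Bef P P' := fun x hx y hy => hAB x (hP hx) y (hP' hy)
  have hc : Clq c κ (P ∪ P') := by
    intro x hx y hy hxy
    rcases mem_union.1 hx with hx | hx
    · rcases mem_union.1 hy with hy | hy
      · exact hQ.1 x (hA (hP hx)) y (hA (hP hy)) hxy
      · exact h3 x hx y hy
    · rcases mem_union.1 hy with hy | hy
      · exact absurd (hb y hy x hx) (by omega)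
      · exact hQ'.1 x (hB (hP' hx)) y (hB (hP' hy)) hxy
  have h4 := hF κ P P' h1 h2 hb hc
  have h5 := hQ.2 P (hP.trans hA) h1
  have h6 := hQ'.2 P' (hP'.trans hB) h2
  omega

theorem sum_card_inter_le {𝓐 : Finset (Finset ℕ)}
    (hd : ∀ Q ∈ 𝓐, ∀ Q' ∈ 𝓐, Q ≠ Q' → Disjoint Q Q') (A : Finset ℕ) :
    ∑ Q ∈ 𝓐, (Q ∩ A).card ≤ A.card := by
  classical
  rw [← card_biUnion]
  · apply card_le_card
    intro x hx
    obtain ⟨Q, _, hxQ⟩ := mem_biUnion.1 hx
    exact (mem_inter.1 hxQ).2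
  · intro Q hQ Q' hQ' hne
    exact disjoint_of_subset_left inter_subset_left
      (disjoint_of_subset_right inter_subset_left (hd Q hQ Q' hQ' hne))

theorem sum3 (𝓐 𝓑 : Finset (Finset ℕ)) (a b : Finset ℕ → ℕ) (x y z : ℕ) :
    ∑ Q ∈ 𝓐, ∑ Q' ∈ 𝓑, (x * (a Q * b Q') + y * a Q + z * b Q')
      = x * ((∑ Q ∈ 𝓐, a Q) * (∑ Q' ∈ 𝓑, b Q'))
        + y * ((∑ Q ∈ 𝓐, a Q) * 𝓑.card) + z * (𝓐.card * ∑ Q' ∈ 𝓑, b Q') := by
  have h1 : ∀ Q ∈ 𝓐, ∑ Q' ∈ 𝓑, (x * (a Q * b Q') + y * a Q + z * b Q')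
      = (x * (∑ Q' ∈ 𝓑, b Q') + y * 𝓑.card) * a Q + z * (∑ Q' ∈ 𝓑, b Q') := by
    intro Q _
    simp only [sum_add_distrib, ← mul_sum, sum_const, smul_eq_mul]
    ring
  rw [sum_congr rfl h1, sum_add_distrib, ← mul_sum, sum_const, smul_eq_mul]
  ring

/-- the size of cliques needed for sparseness `1/M`. -/
def T0 (t M : ℕ) : ℕ := (2 * t * M) * 2 ^ (2 * t * M) + (2 * t * M) ^ 2

theorem sparse (hF : Pot c t F) (ht : 0 < t) {M T : ℕ} (hM : 0 < M) (hT : T0 t M ≤ T)
    {κ : Bool} {m : ℕ} {V A B : Finset ℕ} {𝓐 𝓑 : Finset (Finset ℕ)}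
    (h𝓐 : Tiling T (Hi c t F κ m) V 𝓐) (h𝓑 : Tiling T (Lo c t F κ m) V 𝓑)
    (hA : A ⊆ 𝓐.biUnion id) (hB : B ⊆ 𝓑.biUnion id) (hAB : Bef A B) :
    M * ep c κ A B ≤ V.card ^ 2 := by
  classical
  set α := 2 * t * M with hα
  have hα0 : 0 < α := by positivity
  have hTpos : 0 < T := lt_of_lt_of_le (by unfold T0; positivity) hT
  have hAc : A.card ≤ V.card := card_le_card (hA.trans h𝓐.union_sub)
  have hBc : B.card ≤ V.card := card_le_card (hB.trans h𝓑.union_sub)
  have hsA := sum_card_inter_le h𝓐.disj A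
  have hsB := sum_card_inter_le h𝓑.disj B
  have h1 : ep c κ A B ≤ ∑ Q ∈ 𝓐, ∑ Q' ∈ 𝓑, ep c κ (Q ∩ A) (Q' ∩ B) := by
    refine (ep_biUnion_left c κ 𝓐 A B hA).trans ?_
    apply sum_le_sum
    intro Q _
    exact ep_biUnion_right c κ 𝓑 (Q ∩ A) B hB
  have h2 : α * ep c κ A B ≤ ∑ Q ∈ 𝓐, ∑ Q' ∈ 𝓑,
      (t * ((Q ∩ A).card * (Q' ∩ B).card) + t * α * 2 ^ α * (Q ∩ A).card
        + α ^ 2 * (Q' ∩ B).card) := by
    refine (Nat.mul_le_mul_left _ h1).trans ?_
    rw [mul_sum]
    apply sum_le_sum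
    intro Q hQ
    rw [mul_sum]
    apply sum_le_sum
    intro Q' hQ'
    apply kst c κ t α hα0 _ _ _ rfl
    apply noK_of_hi_lo hF (h𝓐.prop Q hQ) (h𝓑.prop Q' hQ') inter_subset_left inter_subset_left
    intro x hx y hy
    exact hAB x (mem_inter.1 hx).2 y (mem_inter.1 hy).2
  have h3 : ∑ Q ∈ 𝓐, ∑ Q' ∈ 𝓑,
      (t * ((Q ∩ A).card * (Q' ∩ B).card) + t * α * 2 ^ α * (Q ∩ A).card
        + α ^ 2 * (Q' ∩ B).card)
      = t * ((∑ Q ∈ 𝓐, (Q ∩ A).card) * (∑ Q' ∈ 𝓑, (Q' ∩ B).card))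
        + t * α * 2 ^ α * ((∑ Q ∈ 𝓐, (Q ∩ A).card) * 𝓑.card)
        + α ^ 2 * (𝓐.card * ∑ Q' ∈ 𝓑, (Q' ∩ B).card) := by
    exact sum3 𝓐 𝓑 (fun Q => (Q ∩ A).card) (fun Q => (Q ∩ B).card) _ _ _
  rw [h3] at h2
  have hcA := h𝓐.card_le
  have hcB := h𝓑.card_le
  set v := V.card with hv
  set sA := ∑ Q ∈ 𝓐, (Q ∩ A).card with hsA'
  set sB := ∑ Q' ∈ 𝓑, (Q' ∩ B).card with hsB'
  have e1 : sA * sB ≤ v * v := Nat.mul_le_mul (hsA.trans hAc) (hsB.trans hBc)
  have e2 : sA * 𝓑.card * T ≤ v * v := by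
    rw [mul_assoc]
    exact Nat.mul_le_mul (hsA.trans hAc) hcB
  have e3 : 𝓐.card * sB * T ≤ v * v := by
    calc 𝓐.card * sB * T = (𝓐.card * T) * sB := by ring
      _ ≤ v * v := Nat.mul_le_mul hcA (hsB.trans hBc)
  have h4 : (α * ep c κ A B) * T ≤ t * T * (v * v) + (t * α * 2 ^ α + α ^ 2) * (v * v) := by
    calc (α * ep c κ A B) * T ≤ (t * (sA * sB) + t * α * 2 ^ α * (sA * 𝓑.card)
          + α ^ 2 * (𝓐.card * sB)) * T := Nat.mul_le_mul_right _ h2
      _ = t * T * (sA * sB) + t * α * 2 ^ α * (sA * 𝓑.card * T)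
          + α ^ 2 * (𝓐.card * sB * T) := by ring
      _ ≤ t * T * (v * v) + t * α * 2 ^ α * (v * v) + α ^ 2 * (v * v) := by gcongr
      _ = _ := by ring
  have h5 : t * α * 2 ^ α + α ^ 2 ≤ t * T := by
    have : t * T0 t M ≤ t * T := Nat.mul_le_mul_left _ hT
    unfold T0 at this
    rw [← hα] at this
    have h6 : α ^ 2 ≤ t * α ^ 2 := Nat.le_mul_of_pos_left _ ht
    calc t * α * 2 ^ α + α ^ 2 ≤ t * α * 2 ^ α + t * α ^ 2 := Nat.add_le_add_left h6 _
      _ = t * (α * 2 ^ α + α ^ 2) := by ring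
      _ ≤ t * T := this
  have h6 : (α * ep c κ A B) * T ≤ 2 * t * T * (v * v) := by
    calc (α * ep c κ A B) * T ≤ t * T * (v * v) + (t * α * 2 ^ α + α ^ 2) * (v * v) := h4
      _ ≤ t * T * (v * v) + (t * T) * (v * v) := by gcongr
      _ = _ := by ring
  have h7 : (2 * t * T) * (M * ep c κ A B) ≤ (2 * t * T) * (v ^ 2) := by
    calc (2 * t * T) * (M * ep c κ A B) = (α * ep c κ A B) * T := by rw [hα]; ring
      _ ≤ 2 * t * T * (v * v) := h6
      _ = _ := by ring
  exact Nat.le_of_mul_le_mul_left h7 (by positivity)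

end

/-- initial segments. -/
theorem exists_initial (W : Finset ℕ) : ∀ k : ℕ, k ≤ W.card →
    ∃ A ⊆ W, A.card = k ∧ Bef A (W \ A) := by
  classical
  intro k
  induction k with
  | zero => intro _; exact ⟨∅, empty_subset _, rfl, fun x hx => absurd hx (notMem_empty _)⟩
  | succ k ih =>
    intro hk
    obtain ⟨A, hA, hAc, hB⟩ := ih (by omega)
    have hne : (W \ A).Nonempty := by
      rw [← card_pos, card_sdiff_of_subset hA]; omega
    set m := (W \ A).min' hne with hm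
    have hmem : m ∈ W \ A := min'_mem _ _
    have hmW := mem_sdiff.1 hmem
    refine ⟨insert m A, ?_, ?_, ?_⟩
    · intro x hx
      rcases mem_insert.1 hx with rfl | hx
      · exact hmW.1
      · exact hA hx
    · rw [card_insert_of_notMem hmW.2, hAc]
    · intro x hx y hy
      rw [mem_sdiff, mem_insert, not_or] at hy
      have hy' : y ∈ W \ A := mem_sdiff.2 ⟨hy.1, hy.2.2⟩
      rcases mem_insert.1 hx with rfl | hx
      · exact lt_of_le_of_ne (min'_le _ _ hy') (Ne.symm hy.2.1)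
      · exact hB x hx y hy'

/-- cut a set into consecutive pieces of equal size. -/
theorem exists_pieces (w : ℕ) : ∀ s : ℕ, ∀ W : Finset ℕ, s * w ≤ W.card →
    ∃ f : ℕ → Finset ℕ, (∀ i < s, f i ⊆ W ∧ (f i).card = w) ∧
      ∀ i j, i < j → j < s → Bef (f i) (f j) := by
  classical
  intro s
  induction s with
  | zero => intro W _; exact ⟨fun _ => ∅, fun i hi => absurd hi (by omega),
      fun i j _ hj => absurd hj (by omega)⟩
  | succ s ih =>
    intro W hW
    have h1 : (s + 1) * w = s * w + w := by ring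
    obtain ⟨A, hA, hAc, hB⟩ := exists_initial W w (by omega)
    obtain ⟨g, hg1, hg2⟩ := ih (W \ A) (by rw [card_sdiff_of_subset hA]; omega)
    refine ⟨fun i => if i = 0 then A else g (i - 1), ?_, ?_⟩
    · intro i hi
      by_cases h0 : i = 0
      · simp only [h0, if_true]; exact ⟨hA, hAc⟩
      · simp only [h0, if_false]
        have := hg1 (i - 1) (by omega)
        exact ⟨this.1.trans sdiff_subset, this.2⟩
    · intro i j hij hj
      have hj0 : j ≠ 0 := by omega
      simp only [hj0, if_false]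
      by_cases h0 : i = 0
      · simp only [h0, if_true]
        intro x hx y hy
        exact hB x hx y ((hg1 (j - 1) (by omega)).1 hy)
      · simp only [h0, if_false]
        exact hg2 (i - 1) (j - 1) (by omega) (by omega)

section
variable {c : ℕ → ℕ → Bool} {t : ℕ} {F : Bool → Finset ℕ → ℕ}

theorem clq_value (hF : Pot c t F) {T : ℕ} (hT : t ≤ T) {κ : Bool} {l : ℕ} {V : Finset ℕ}
    (hlo : Free T (Lo c t F κ l) V) : ∀ j : ℕ, ∀ Q ⊆ V, Clq c κ Q → (j + 1) * T ≤ Q.card →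
      ∃ K ⊆ Q, K.card = t ∧ l + j ≤ F κ K := by
  classical
  intro j
  induction j with
  | zero =>
    intro Q hQ hcl hc
    obtain ⟨Q0, hQ0, hQ0c⟩ := exists_subset_card_eq (s := Q) (n := T) (by omega)
    have h1 := hlo Q0 (hQ0.trans hQ) hQ0c
    unfold Lo at h1
    push Not at h1
    obtain ⟨K, hK, hKc, hKF⟩ := h1 (hcl.mono hQ0)
    exact ⟨K, hK.trans hQ0, hKc, by omega⟩
  | succ j ih =>
    intro Q hQ hcl hc
    have e : (j + 1 + 1) * T = (j + 1) * T + T := by ring
    obtain ⟨A, hA, hAc, hB⟩ := exists_initial Q ((j + 1) * T) (by omega)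
    obtain ⟨K', hK', hK'c, hK'F⟩ := ih A (hA.trans hQ) (hcl.mono hA) (by omega)
    obtain ⟨K, hK, hKc⟩ := exists_subset_card_eq (s := Q \ A) (n := t)
      (by rw [card_sdiff_of_subset hA]; omega)
    refine ⟨K, hK.trans sdiff_subset, hKc, ?_⟩
    have := hF κ K' K hK'c hKc (fun x hx y hy => hB x (hK' hx) y (hK hy))
      (hcl.mono (union_subset (hK'.trans hA) (hK.trans sdiff_subset)))
    omega

theorem clq_card_lt (hF : Pot c t F) {T : ℕ} (hT : t ≤ T) {κ : Bool} {l u : ℕ} {V : Finset ℕ}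
    (hlo : Free T (Lo c t F κ l) V) (hhi : Free T (Hi c t F κ u) V) {Q : Finset ℕ} (hQ : Q ⊆ V)
    (hcl : Clq c κ Q) : Q.card < (u - l + 2) * T := by
  classical
  by_contra hcon
  push Not at hcon
  have e : (u - l + 2) * T = (u - l + 1) * T + T := by ring
  obtain ⟨A, hA, hAc, hB⟩ := exists_initial Q ((u - l + 1) * T) (by omega)
  obtain ⟨K', hK', hK'c, hK'F⟩ := clq_value hF hT hlo (u - l) A (hA.trans hQ) (hcl.mono hA)
    (by omega)
  obtain ⟨R, hR, hRc⟩ := exists_subset_card_eq (s := Q \ A) (n := T)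
    (by rw [card_sdiff_of_subset hA]; omega)
  have h1 := hhi R (hR.trans (sdiff_subset.trans hQ)) hRc
  unfold Hi at h1
  push Not at h1
  obtain ⟨K, hK, hKc, hKF⟩ := h1 (hcl.mono (hR.trans sdiff_subset))
  have hK2 : K ⊆ Q \ A := hK.trans hR
  have := hF κ K' K hK'c hKc (fun x hx y hy => hB x (hK' hx) y (hK2 hy))
    (hcl.mono (union_subset (hK'.trans hA) (hK2.trans sdiff_subset)))
  omega

end

/-- Ramsey bound. -/
def ram : ℕ → ℕ → ℕ
  | 0, _ => 0
  | _ + 1, 0 => 0
  | a + 1, b + 1 => ram a (b + 1) + ram (a + 1) b + 1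

theorem ramsey (c : ℕ → ℕ → Bool) (κ : Bool) : ∀ a b : ℕ, ∀ V : Finset ℕ, ram a b ≤ V.card →
    ∃ Q ⊆ V, (Q.card = a ∧ Clq c κ Q) ∨ (Q.card = b ∧ Clq c (!κ) Q) := by
  classical
  intro a
  induction a with
  | zero =>
    intro b V _
    exact ⟨∅, empty_subset _, Or.inl ⟨rfl, fun x hx => absurd hx (notMem_empty _)⟩⟩
  | succ a iha =>
    intro b
    induction b with
    | zero =>
      intro V _
      exact ⟨∅, empty_subset _, Or.inr ⟨rfl, fun x hx => absurd hx (notMem_empty _)⟩⟩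
    | succ b ihb =>
      intro V hV
      rw [ram] at hV
      have hne : V.Nonempty := by rw [← card_pos]; omega
      set m := V.min' hne with hm
      have hmV : m ∈ V := min'_mem _ _
      set A := (V.erase m).filter (fun y => c m y = κ) with hA
      set B := (V.erase m).filter (fun y => ¬ c m y = κ) with hB
      have hAB : A.card + B.card = (V.erase m).card :=
        card_filter_add_card_filter_not (s := V.erase m) (fun y => c m y = κ)
      rw [card_erase_of_mem hmV] at hAB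
      have hlt : ∀ y ∈ V.erase m, m < y := by
        intro y hy
        rw [mem_erase] at hy
        exact lt_of_le_of_ne (min'_le _ _ hy.2) (Ne.symm hy.1)
      by_cases h : ram a (b + 1) ≤ A.card
      · obtain ⟨Q, hQ, h1⟩ := iha (b + 1) A h
        have hQV : Q ⊆ V.erase m := hQ.trans (filter_subset _ _)
        rcases h1 with ⟨h1, h2⟩ | ⟨h1, h2⟩
        · refine ⟨insert m Q, ?_, Or.inl ⟨?_, ?_⟩⟩
          · intro x hx
            rcases mem_insert.1 hx with rfl | hx
            · exact hmV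
            · exact mem_of_mem_erase (hQV hx)
          · rw [card_insert_of_notMem, h1]
            intro hmQ
            exact notMem_erase m V (hQV hmQ)
          · intro x hx y hy hxy
            rcases mem_insert.1 hx with rfl | hx
            · rcases mem_insert.1 hy with rfl | hy
              · omega
              · exact (mem_filter.1 (hQ hy)).2
            · rcases mem_insert.1 hy with rfl | hy
              · have := hlt x (hQV hx); omega
              · exact h2 x hx y hy hxy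
        · exact ⟨Q, hQV.trans (erase_subset _ _), Or.inr ⟨h1, h2⟩⟩
      · obtain ⟨Q, hQ, h1⟩ := ihb B (by omega)
        have hQV : Q ⊆ V.erase m := hQ.trans (filter_subset _ _)
        rcases h1 with ⟨h1, h2⟩ | ⟨h1, h2⟩
        · exact ⟨Q, hQV.trans (erase_subset _ _), Or.inl ⟨h1, h2⟩⟩
        · refine ⟨insert m Q, ?_, Or.inr ⟨?_, ?_⟩⟩
          · intro x hx
            rcases mem_insert.1 hx with rfl | hx
            · exact hmV
            · exact mem_of_mem_erase (hQV hx)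
          · rw [card_insert_of_notMem, h1]
            intro hmQ
            exact notMem_erase m V (hQV hmQ)
          · intro x hx y hy hxy
            rcases mem_insert.1 hx with rfl | hx
            · rcases mem_insert.1 hy with rfl | hy
              · omega
              · have := (mem_filter.1 (hQ hy)).2
                cases hc : c m y <;> cases hk : κ <;> simp_all
            · rcases mem_insert.1 hy with rfl | hy
              · have := hlt x (hQV hx); omega
              · exact h2 x hx y hy hxy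

end Pool.Agent.helper95.OR
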